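import Mathlib

/-!
Sequential OWA rules under which free-riding is never harmful: a complete classification.
-/

set_option autoImplicit false

namespace Pool.Agent.Results.MP_57045c_lc.Classification

open Finset

/-! ### The model -/

/-- An election with `n` voters and `k` issues: issue `i` has the finite nonempty candidate set
`C i` (candidates are named by natural numbers, ties are broken in favour of the smaller name) and
voter `v` approves the candidates in `A i v`. -/
structure Election (n k : ℕ) where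
  C : Fin k → Finset ℕ
  nonempty : ∀ i, (C i).Nonempty
  A : Fin k → Fin n → Finset ℕ
  sub : ∀ i v, A i v ⊆ C i

/-- The number of issues before issue number `i` on which voter `v` approves the winner `w`. -/
def Election.sat {n k : ℕ} (E : Election n k) (w : Fin k → ℕ) (v : Fin n) (i : ℕ) : ℕ :=
  (univ.filter fun j : Fin k => (j : ℕ) < i ∧ w j ∈ E.A j v).card

/-- The product of the weights with the increasingly sorted vector `s`. -/
noncomputable def owa {n : ℕ} (a : Fin n → ℝ) (s : Fin n → ℕ) : ℝ :=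
  ∑ j, a j * (s (Tuple.sort s j) : ℝ)

/-- The value of choosing candidate `c` on issue `i` after the winners `w` on the issues
before. -/
noncomputable def Election.score {n k : ℕ} (E : Election n k) (a : Fin n → ℝ) (w : Fin k → ℕ)
    (i : Fin k) (c : ℕ) : ℝ :=
  owa a (fun v => E.sat w v i + if c ∈ E.A i v then 1 else 0)

/-- `c` is the smallest maximiser of `V` on `C`. -/
def Best (V : ℕ → ℝ) (C : Finset ℕ) (c : ℕ) : Prop :=
  c ∈ C ∧ ∀ d ∈ C, d ≠ c → V d < V c ∨ (V d = V c ∧ c < d)

/-- `w` is the outcome of the sequential OWA rule with weights `a`. -/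
def Election.IsOutcome {n k : ℕ} (E : Election n k) (a : Fin n → ℝ) (w : Fin k → ℕ) : Prop :=
  ∀ i, Best (E.score a w i) (E.C i) (w i)

/-- Voter `v` free-rides on issue `i` via `E'`; the two outcomes are `w` and `w'`. -/
structure FreeRides {n k : ℕ} (a : Fin n → ℝ) (E E' : Election n k) (v : Fin n) (i : Fin k)
    (w w' : Fin k → ℕ) : Prop where
  out : E.IsOutcome a w
  out' : E'.IsOutcome a w'
  cand : E'.C = E.C
  ballots : ∀ j u, ¬ (j = i ∧ u = v) → E'.A j u = E.A j u
  approved : w i ∈ E.A i v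
  dropped : w i ∉ E'.A i v
  wins : w' i = w i

/-- Free-riding is never harmful for the `n` voter rule with weights `a` (satisfaction is measured
with the true ballots, those of `E`). -/
def NeverHarmful {n : ℕ} (a : Fin n → ℝ) : Prop :=
  ∀ (k : ℕ) (E E' : Election n k) (v : Fin n) (i : Fin k) (w w' : Fin k → ℕ),
    FreeRides a E E' v i w w' → E.sat w v k ≤ E.sat w' v k

/-- A family of weight vectors: nonnegative, the first weight positive. -/
def IsOWA (α : (n : ℕ) → Fin n → ℝ) : Prop :=
  (∀ n j, 0 ≤ α n j) ∧ ∀ n (h : 0 < n), 0 < α n ⟨0, h⟩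

/-! ### Basic facts -/

theorem Best.unique {V : ℕ → ℝ} {C : Finset ℕ} {c d : ℕ} (hc : Best V C c) (hd : Best V C d) :
    c = d := by
  by_contra hne
  rcases hc.2 d hd.1 (Ne.symm hne) with h1 | ⟨h1, h2⟩ <;>
    rcases hd.2 c hc.1 hne with h3 | ⟨h3, h4⟩
  · linarith
  · linarith
  · linarith
  · omega

theorem Best.exists (V : ℕ → ℝ) {C : Finset ℕ} (hC : C.Nonempty) : ∃ c, Best V C c := by
  obtain ⟨m, hm, hmax⟩ := C.exists_max_image V hC
  set D := C.filter fun c => V c = V m with hD
  have hDne : D.Nonempty := ⟨m, by simp [hD, hm]⟩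
  refine ⟨D.min' hDne, ?_, ?_⟩
  · exact (mem_filter.1 (D.min'_mem hDne)).1
  · intro d hd hne
    have hmem := D.min'_mem hDne
    have hval : V (D.min' hDne) = V m := (mem_filter.1 hmem).2
    rcases lt_or_eq_of_le (hmax d hd) with h | h
    · left; rw [hval]; exact h
    · right
      refine ⟨by rw [hval, h], ?_⟩
      have hdD : d ∈ D := by simp [hD, hd, h]
      exact lt_of_le_of_ne (D.min'_le d hdD) (Ne.symm hne)

theorem sat_zero {n k : ℕ} (E : Election n k) (w : Fin k → ℕ) (v : Fin n) : E.sat w v 0 = 0 := by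
  simp [Election.sat]

theorem sat_succ {n k : ℕ} (E : Election n k) (w : Fin k → ℕ) (v : Fin n) (i : Fin k) :
    E.sat w v (i + 1) = E.sat w v i + if w i ∈ E.A i v then 1 else 0 := by
  unfold Election.sat
  split_ifs with h
  · have : (univ.filter fun j : Fin k => (j : ℕ) < i + 1 ∧ w j ∈ E.A j v) =
        insert i (univ.filter fun j : Fin k => (j : ℕ) < i ∧ w j ∈ E.A j v) := by
      ext j
      simp only [mem_filter, mem_univ, true_and, mem_insert]
      constructor
      · rintro ⟨h1, h2⟩
        by_cases hj : j = i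
        · exact Or.inl hj
        · right
          refine ⟨?_, h2⟩
          have : (j : ℕ) ≠ i := fun h => hj (Fin.ext h)
          omega
      · rintro (h1 | ⟨h1, h2⟩)
        · subst h1; exact ⟨by omega, h⟩
        · exact ⟨by omega, h2⟩
    rw [this, card_insert_of_notMem (by simp)]
  · rw [add_zero]
    congr 1
    ext j
    simp only [mem_filter, mem_univ, true_and]
    constructor
    · rintro ⟨h1, h2⟩
      refine ⟨?_, h2⟩
      have : (j : ℕ) ≠ i := by
        intro hj
        exact h (Fin.ext hj ▸ h2)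
      omega
    · rintro ⟨h1, h2⟩
      exact ⟨by omega, h2⟩

theorem sat_congr {n k : ℕ} (E : Election n k) {w w' : Fin k → ℕ} (v : Fin n) (i : ℕ)
    (h : ∀ j : Fin k, (j : ℕ) < i → w j = w' j) : E.sat w v i = E.sat w' v i := by
  unfold Election.sat
  congr 1
  ext j
  simp only [mem_filter, mem_univ, true_and]
  constructor
  · rintro ⟨h1, h2⟩; exact ⟨h1, h j h1 ▸ h2⟩
  · rintro ⟨h1, h2⟩; exact ⟨h1, (h j h1).symm ▸ h2⟩

theorem score_congr {n k : ℕ} (E : Election n k) (a : Fin n → ℝ) {w w' : Fin k → ℕ} (i : Fin k)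
    (h : ∀ j : Fin k, (j : ℕ) < i → w j = w' j) : E.score a w i = E.score a w' i := by
  funext c
  unfold Election.score
  congr 1
  funext v
  rw [sat_congr E v i h]

/-- Every election has exactly one outcome. -/
theorem exists_unique_outcome {n k : ℕ} (a : Fin n → ℝ) (E : Election n k) :
    ∃! w, E.IsOutcome a w := by
  have huniq : ∀ w w', E.IsOutcome a w → E.IsOutcome a w' → w = w' := by
    intro w w' h h'
    have : ∀ m : ℕ, ∀ i : Fin k, (i : ℕ) < m → w i = w' i := by
      intro m
      induction m with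
      | zero => intro i hi; omega
      | succ m ih =>
        intro i hi
        have h1 := h i
        have h2 := h' i
        rw [← score_congr E a i (fun j hj => ih j (by omega))] at h2
        exact h1.unique h2
    funext i
    exact this (i + 1) i (by omega)
  have hex : ∀ m : ℕ, ∃ w : Fin k → ℕ, ∀ i : Fin k, (i : ℕ) < m →
      Best (E.score a w i) (E.C i) (w i) := by
    intro m
    induction m with
    | zero => exact ⟨fun _ => 0, fun i hi => by omega⟩
    | succ m ih =>
      obtain ⟨w, hw⟩ := ih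
      by_cases hm : m < k
      · obtain ⟨c, hc⟩ := Best.exists (E.score a w ⟨m, hm⟩) (E.nonempty ⟨m, hm⟩)
        refine ⟨Function.update w ⟨m, hm⟩ c, ?_⟩
        intro i hi
        have hs : E.score a (Function.update w ⟨m, hm⟩ c) i = E.score a w i := by
          apply score_congr
          intro j hj
          rw [Function.update_of_ne]
          intro h
          rw [h] at hj
          simp only at hj
          omega
        rw [hs]
        by_cases him : i = ⟨m, hm⟩
        · subst him
          rw [Function.update_self]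
          exact hc
        · rw [Function.update_of_ne him]
          apply hw
          have : (i : ℕ) ≠ m := fun h => him (Fin.ext h)
          omega
      · exact ⟨w, fun i _ => hw i (by omega)⟩
  obtain ⟨w, hw⟩ := hex k
  exact ⟨w, fun i => hw i i.2, fun w' hw' => huniq _ _ hw' (fun i => hw i i.2)⟩

/-! ### Facts on the OWA value -/

theorem owa_eq {n : ℕ} (a : Fin n → ℝ) (s : Fin n → ℕ) (σ : Equiv.Perm (Fin n))
    (h : Monotone (s ∘ σ)) : owa a s = ∑ j, a j * (s (σ j) : ℝ) := by
  unfold owa
  have h1 : s ∘ σ = s ∘ Tuple.sort s := (Tuple.comp_sort_eq_comp_iff_monotone).2 h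
  apply sum_congr rfl
  intro j _
  have := congrFun h1 j
  simp only [Function.comp_apply] at this
  rw [this]

theorem owa_perm {n : ℕ} (a : Fin n → ℝ) (s : Fin n → ℕ) (τ : Equiv.Perm (Fin n)) :
    owa a (s ∘ τ) = owa a s := by
  have h1 : Monotone ((s ∘ τ) ∘ (Tuple.sort (s ∘ τ))) := Tuple.monotone_sort _
  rw [owa_eq a s (Tuple.sort (s ∘ τ) * τ⁻¹ * τ |>.trans τ) (by
    have : s ∘ ((Tuple.sort (s ∘ τ) * τ⁻¹ * τ).trans τ) = (s ∘ τ) ∘ (Tuple.sort (s ∘ τ)) := by
      funext j; simp
    rw [this]; exact h1)]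
  unfold owa
  apply sum_congr rfl
  intro j _
  simp

theorem owa_const {n : ℕ} (a : Fin n → ℝ) (c : ℝ) (h : ∀ j, a j = c) (s : Fin n → ℕ) :
    owa a s = c * ∑ j, (s j : ℝ) := by
  unfold owa
  rw [mul_sum, ← Equiv.sum_comp (Tuple.sort s) (fun j => c * (s j : ℝ))]
  exact sum_congr rfl fun j _ => by rw [h]

theorem owa_two (a : Fin 2 → ℝ) (s : Fin 2 → ℕ) :
    owa a s = a 1 * (s 0 + s 1) + (a 0 - a 1) * (min (s 0) (s 1) : ℕ) := by
  rcases le_total (s 0) (s 1) with h | h
  · rw [owa_eq a s 1 (by
      intro i j hij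
      fin_cases i <;> fin_cases j <;> simp_all)]
    rw [min_eq_left h, Fin.sum_univ_two]
    simp only [Equiv.Perm.coe_one, id_eq]
    ring
  · rw [owa_eq a s (Equiv.swap 0 1) (by
      intro i j hij
      fin_cases i <;> fin_cases j <;> simp_all)]
    rw [min_eq_right h, Fin.sum_univ_two]
    simp only [Equiv.swap_apply_left, Equiv.swap_apply_right]
    ring

theorem owa_three (a : Fin 3 → ℝ) (s : Fin 3 → ℕ) :
    owa a s = a 1 * (s 0 + s 1 + s 2) + (a 0 - a 1) * (min (s 0) (min (s 1) (s 2)) : ℕ)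
      - (a 1 - a 2) * (max (s 0) (max (s 1) (s 2)) : ℕ) := by
  set σ := Tuple.sort s with hσ
  have hm : Monotone (s ∘ σ) := Tuple.monotone_sort s
  have h01 : s (σ 0) ≤ s (σ 1) := hm (by decide)
  have h12 : s (σ 1) ≤ s (σ 2) := hm (by decide)
  have hsum : s (σ 0) + s (σ 1) + s (σ 2) = s 0 + s 1 + s 2 := by
    have := Equiv.sum_comp σ s
    rwa [Fin.sum_univ_three, Fin.sum_univ_three] at this
  have hlow : ∀ u, s (σ 0) ≤ s u := by
    intro u
    have : (s ∘ σ) 0 ≤ (s ∘ σ) (σ.symm u) := hm (Fin.zero_le _)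
    simpa using this
  have hhigh : ∀ u, s u ≤ s (σ 2) := by
    intro u
    have : (s ∘ σ) (σ.symm u) ≤ (s ∘ σ) 2 := hm (Fin.le_last _)
    simpa using this
  have hmin : min (s 0) (min (s 1) (s 2)) = s (σ 0) := by
    apply le_antisymm
    · have : σ 0 = 0 ∨ σ 0 = 1 ∨ σ 0 = 2 := by
        generalize σ 0 = x; fin_cases x <;> simp
      rcases this with h | h | h <;> rw [h] <;> omega
    · have := hlow 0; have := hlow 1; have := hlow 2; omega
  have hmax : max (s 0) (max (s 1) (s 2)) = s (σ 2) := by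
    apply le_antisymm
    · have := hhigh 0; have := hhigh 1; have := hhigh 2; omega
    · have : σ 2 = 0 ∨ σ 2 = 1 ∨ σ 2 = 2 := by
        generalize σ 2 = x; fin_cases x <;> simp
      rcases this with h | h | h <;> rw [h] <;> omega
  rw [hmin, hmax]
  have hsum' : (s (σ 0) : ℝ) + s (σ 1) + s (σ 2) = s 0 + s 1 + s 2 := by exact_mod_cast hsum
  rw [← hsum']
  unfold owa
  rw [← hσ, Fin.sum_univ_three]
  ring

/-- Add one to the satisfaction of the voters in `X`. -/
def upd {n : ℕ} (s : Fin n → ℕ) (X : Finset (Fin n)) : Fin n → ℕ :=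
  fun v => s v + if v ∈ X then 1 else 0


theorem upd_apply {n : ℕ} (s : Fin n → ℕ) (X : Finset (Fin n)) (v : Fin n) :
    upd s X v = s v + if v ∈ X then 1 else 0 := rfl

/-! ### The positive part -/

/-- The voters approving candidate `c`. -/
def supp {n : ℕ} (A : Fin n → Finset ℕ) (c : ℕ) : Finset (Fin n) := univ.filter fun v => c ∈ A v

theorem supp_upd {n : ℕ} (s : Fin n → ℕ) (A : Fin n → Finset ℕ) (c : ℕ) :
    upd s (supp A c) = fun v => s v + if c ∈ A v then 1 else 0 := by
  funext v
  simp [upd, supp]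

theorem never_of_inv {n : ℕ} (a : Fin n → ℝ) (Inv : (Fin n → ℕ) → (Fin n → ℕ) → Prop)
    (h0 : ∀ s v, Inv (upd s {v}) s)
    (hstep : ∀ s t (A : Fin n → Finset ℕ) C c d, Inv s t →
      Best (fun x => owa a (upd s (supp A x))) C c →
      Best (fun x => owa a (upd t (supp A x))) C d →
      Inv (upd s (supp A c)) (upd t (supp A d)))
    (hend : ∀ s t, Inv s t → ∀ v, s v ≤ t v + 1) : NeverHarmful a := by
  intro k E E' v i w w' F
  have sc : ∀ j : Fin k, E.score a w j = fun x => owa a (upd (fun u => E.sat w u j)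
      (supp (E.A j) x)) := by
    intro j; funext x
    rw [supp_upd]; rfl
  have sc' : ∀ j : Fin k, E'.score a w' j = fun x => owa a (upd (fun u => E'.sat w' u j)
      (supp (E'.A j) x)) := by
    intro j; funext x
    rw [supp_upd]; rfl
  have hA : ∀ j : Fin k, j ≠ i → E'.A j = E.A j := by
    intro j hj
    funext u
    exact F.ballots j u (fun h => hj h.1)
  -- before the free-riding issue nothing changes
  have c1 : ∀ m : ℕ, m ≤ i → (∀ u, E.sat w u m = E'.sat w' u m) ∧
      E.sat w' v m = E.sat w v m := by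
    intro m
    induction m with
    | zero => intro _; simp [sat_zero]
    | succ m ih =>
      intro hm
      obtain ⟨ih1, ih2⟩ := ih (by omega)
      have hmk : m < k := by have := i.2; omega
      have hne : (⟨m, hmk⟩ : Fin k) ≠ i := by
        intro h
        rw [← h] at hm
        simp at hm
      have hb := F.out ⟨m, hmk⟩
      have hb' := F.out' ⟨m, hmk⟩
      rw [sc] at hb
      rw [sc', hA _ hne, F.cand] at hb'
      have he : (fun u => E.sat w u ((⟨m, hmk⟩ : Fin k) : ℕ)) =
          fun u => E'.sat w' u ((⟨m, hmk⟩ : Fin k) : ℕ) := by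
        funext u; exact ih1 u
      rw [he] at hb
      have hw := hb.unique hb'
      constructor
      · intro u
        have e1 := sat_succ E w u ⟨m, hmk⟩
        have e2 := sat_succ E' w' u ⟨m, hmk⟩
        simp only at e1 e2
        rw [e1, e2, ih1 u, hw, hA _ hne]
      · have e1 := sat_succ E w v ⟨m, hmk⟩
        have e2 := sat_succ E w' v ⟨m, hmk⟩
        simp only at e1 e2
        rw [e1, e2, ih2, hw]
  -- after the free-riding issue the invariant holds
  have c2 : ∀ m : ℕ, (i : ℕ) + 1 ≤ m → m ≤ k →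
      Inv (fun u => E.sat w u m) (fun u => E'.sat w' u m) ∧
      E.sat w' v m = E'.sat w' v m + 1 := by
    intro m hm
    induction m, hm using Nat.le_induction with
    | base =>
      intro _
      obtain ⟨h1, h2⟩ := c1 i le_rfl
      have hs : ∀ u, E.sat w u (i + 1) = E'.sat w' u (i + 1) + if u = v then 1 else 0 := by
        intro u
        rw [sat_succ, sat_succ, h1 u]
        by_cases hu : u = v
        · subst hu
          rw [if_pos F.approved, F.wins, if_neg F.dropped]
          simp
        · rw [F.ballots i u (fun h => hu h.2), F.wins]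
          simp [hu]
      constructor
      · have : (fun u => E.sat w u (i + 1)) = upd (fun u => E'.sat w' u (i + 1)) {v} := by
          funext u
          rw [hs u]
          simp [upd]
        rw [this]
        exact h0 _ _
      · rw [sat_succ, sat_succ, h2, F.wins, if_pos F.approved, if_neg F.dropped, h1 v]
    | succ m hm ih =>
      intro hmk
      obtain ⟨ih1, ih2⟩ := ih (by omega)
      have hmk' : m < k := by omega
      have hne : (⟨m, hmk'⟩ : Fin k) ≠ i := by
        intro h
        rw [← h] at hm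
        simp at hm
      have hb := F.out ⟨m, hmk'⟩
      have hb' := F.out' ⟨m, hmk'⟩
      rw [sc] at hb
      rw [sc', hA _ hne, F.cand] at hb'
      have hst := hstep _ _ _ _ _ _ ih1 hb hb'
      constructor
      · have e1 : (fun u => E.sat w u (m + 1)) = upd (fun u => E.sat w u m)
            (supp (E.A ⟨m, hmk'⟩) (w ⟨m, hmk'⟩)) := by
          rw [supp_upd]
          funext u
          exact sat_succ E w u ⟨m, hmk'⟩
        have e2 : (fun u => E'.sat w' u (m + 1)) = upd (fun u => E'.sat w' u m)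
            (supp (E.A ⟨m, hmk'⟩) (w' ⟨m, hmk'⟩)) := by
          rw [supp_upd, ← hA _ hne]
          funext u
          exact sat_succ E' w' u ⟨m, hmk'⟩
        rw [e1, e2]
        exact hst
      · have e1 := sat_succ E' w' v ⟨m, hmk'⟩
        have e2 := sat_succ E w' v ⟨m, hmk'⟩
        simp only at e1 e2
        rw [e1, e2, ih2, hA _ hne]
        omega
  obtain ⟨h1, h2⟩ := c2 k i.2 le_rfl
  rw [h2]
  exact hend _ _ h1 v

/-- Constant weights: free-riding is never harmful. -/
theorem never_const {n : ℕ} (a : Fin n → ℝ) (c : ℝ) (h : ∀ j, a j = c) :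
    NeverHarmful a := by
  refine never_of_inv a (fun s t => ∃ z, s = upd t {z}) (fun s v => ⟨v, rfl⟩) ?_ ?_
  · rintro s t A C x y ⟨z, rfl⟩ hx hy
    have hsum : ∀ (t : Fin n → ℕ) (X : Finset (Fin n)),
        owa a (upd t X) = c * (∑ j, (t j : ℝ)) + c * ∑ j, (if j ∈ X then (1 : ℝ) else 0) := by
      intro t X
      rw [owa_const a c h]
      simp only [upd, Nat.cast_add, Nat.cast_ite, Nat.cast_one, Nat.cast_zero]
      rw [sum_add_distrib, mul_add]
    have : x = y := by
      by_contra hne
      have h1 := hx.2 y hy.1 (Ne.symm hne)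
      have h2 := hy.2 x hx.1 hne
      simp only [hsum] at h1 h2
      rcases h1 with h1 | ⟨h1, h1'⟩ <;> rcases h2 with h2 | ⟨h2, h2'⟩
      · linarith
      · linarith
      · linarith
      · omega
    subst this
    refine ⟨z, ?_⟩
    funext u
    simp only [upd]
    omega
  · rintro s t ⟨z, rfl⟩ v
    simp only [upd]
    split_ifs <;> omega

/-- Two voters: free-riding is never harmful if the weights are nonincreasing. -/
theorem never_two (a : Fin 2 → ℝ) (h : a 1 ≤ a 0) :
    NeverHarmful a := by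
  refine never_of_inv a (fun s t => ∀ u, t u ≤ s u ∧ s u ≤ t u + 1) ?_ ?_ ?_
  · intro s v u
    simp only [upd]
    split_ifs <;> omega
  · intro s t A C x y hst hx hy
    by_cases hxy : x = y
    · subst hxy
      intro u
      have := hst u
      simp only [upd]
      omega
    -- the cross inequality
    have hcross : ¬ (owa a (upd s (supp A x)) + owa a (upd t (supp A y)) ≤
        owa a (upd s (supp A y)) + owa a (upd t (supp A x))) := by
      intro hc
      have e1 := hx.2 y hy.1 (Ne.symm hxy)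
      have e2 := hy.2 x hx.1 hxy
      simp only at e1 e2
      rcases e1 with e1 | ⟨e1, e1'⟩ <;> rcases e2 with e2 | ⟨e2, e2'⟩
      · linarith
      · linarith
      · linarith
      · omega
    generalize supp A x = X at hcross ⊢
    generalize supp A y = Y at hcross ⊢
    have hP : 0 ≤ a 0 - a 1 := by linarith
    simp only [owa_two] at hcross
    have key : min (upd s X 0) (upd s X 1) + min (upd t Y 0) (upd t Y 1) ≤
        min (upd s Y 0) (upd s Y 1) + min (upd t X 0) (upd t X 1) → False := by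
      intro hm
      apply hcross
      have hm' : ((min (upd s X 0) (upd s X 1) : ℕ) : ℝ) + (min (upd t Y 0) (upd t Y 1) : ℕ) ≤
        (min (upd s Y 0) (upd s Y 1) : ℕ) + (min (upd t X 0) (upd t X 1) : ℕ) := by
        exact_mod_cast hm
      have hs : ((upd s X 0 : ℕ) : ℝ) + (upd s X 1 : ℕ) + ((upd t Y 0 : ℕ) + (upd t Y 1 : ℕ)) =
          ((upd s Y 0 : ℕ) + (upd s Y 1 : ℕ)) + ((upd t X 0 : ℕ) + (upd t X 1 : ℕ)) := by
        simp only [upd]
        push_cast
        ring
      have e3 := mul_le_mul_of_nonneg_left hm' hP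
      have e4 : a 1 * (((upd s X 0 : ℕ) : ℝ) + (upd s X 1 : ℕ) +
          ((upd t Y 0 : ℕ) + (upd t Y 1 : ℕ))) = a 1 * (((upd s Y 0 : ℕ) + (upd s Y 1 : ℕ)) +
          ((upd t X 0 : ℕ) + (upd t X 1 : ℕ))) := by rw [hs]
      linarith
    have s0 := hst 0
    have s1 := hst 1
    simp only [upd] at key
    intro u
    simp only [upd]
    by_contra hcon
    apply key
    clear key hcross
    have hu : u = 0 ∨ u = 1 := by fin_cases u <;> simp
    rcases hu with rfl | rfl <;> split_ifs at * <;> omega
  · intro s t hst v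
    exact (hst v).2


/-- minimum and maximum of three voters -/
def mn (s : Fin 3 → ℕ) : ℕ := min (s 0) (min (s 1) (s 2))
/-- minimum and maximum of three voters -/
def mx (s : Fin 3 → ℕ) : ℕ := max (s 0) (max (s 1) (s 2))

theorem owa3 (a : Fin 3 → ℝ) (s : Fin 3 → ℕ) : owa a s = a 1 * ((s 0 + s 1 + s 2 : ℕ) : ℝ) +
    (a 0 - a 1) * (mn s : ℝ) - (a 1 - a 2) * (mx s : ℝ) := by
  rw [owa_three, Nat.cast_add, Nat.cast_add]; rfl

theorem card_three (X : Finset (Fin 3)) : X.card = (if (0 : Fin 3) ∈ X then 1 else 0) +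
    (if (1 : Fin 3) ∈ X then 1 else 0) + (if (2 : Fin 3) ∈ X then 1 else 0) := by
  revert X; decide

theorem lt_of_card (a : Fin 3 → ℝ) (h01 : a 1 < a 0) (h12 : a 2 < a 1) (h : a 0 < a 1 + a 2)
    (s : Fin 3 → ℕ) (X Y : Finset (Fin 3)) (hXY : X.card < Y.card) :
    owa a (upd s X) < owa a (upd s Y) := by
  rw [owa3, owa3]
  rw [card_three, card_three] at hXY
  have e1 : upd s X 0 + upd s X 1 + upd s X 2 + 1 ≤ upd s Y 0 + upd s Y 1 + upd s Y 2 := by
    simp only [upd]; omega
  have e2 : mn (upd s X) ≤ mn (upd s Y) + 1 := by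
    simp only [mn, upd]; split_ifs <;> omega
  have e3 : mx (upd s Y) ≤ mx (upd s X) + 1 := by
    simp only [mx, upd]; split_ifs <;> omega
  have f1 : ((upd s X 0 + upd s X 1 + upd s X 2 : ℕ) : ℝ) + 1 ≤
      (upd s Y 0 + upd s Y 1 + upd s Y 2 : ℕ) := by exact_mod_cast e1
  have f2 : (mn (upd s X) : ℝ) ≤ mn (upd s Y) + 1 := by exact_mod_cast e2
  have f3 : (mx (upd s Y) : ℝ) ≤ mx (upd s X) + 1 := by exact_mod_cast e3
  have g1 := mul_le_mul_of_nonneg_left f1 (by linarith : 0 ≤ a 1)
  have g2 := mul_le_mul_of_nonneg_left f2 (by linarith : 0 ≤ a 0 - a 1)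
  have g3 := mul_le_mul_of_nonneg_left f3 (by linarith : 0 ≤ a 1 - a 2)
  linarith

theorem order_three (a : Fin 3 → ℝ) (h01 : a 1 < a 0) (h12 : a 2 < a 1) (f g : Fin 3 → ℕ)
    (hs : f 0 + f 1 + f 2 = g 0 + g 1 + g 2) (h1 : mn g ≤ mn f) (h2 : mx f ≤ mx g)
    (h3 : mn g < mn f ∨ mx f < mx g) : owa a g < owa a f := by
  rw [owa3, owa3, hs]
  have f1 : (mn g : ℝ) ≤ mn f := by exact_mod_cast h1
  have f2 : (mx f : ℝ) ≤ mx g := by exact_mod_cast h2
  have hP : 0 < a 0 - a 1 := by linarith
  have hQ : 0 < a 1 - a 2 := by linarith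
  have g1 := mul_le_mul_of_nonneg_left f1 hP.le
  have g2 := mul_le_mul_of_nonneg_left f2 hQ.le
  rcases h3 with h3 | h3
  · have f3 : (mn g : ℝ) < mn f := by exact_mod_cast h3
    have g3 := mul_lt_mul_of_pos_left f3 hP
    linarith
  · have f3 : (mx f : ℝ) < mx g := by exact_mod_cast h3
    have g3 := mul_lt_mul_of_pos_left f3 hQ
    linarith

theorem single_lt (a : Fin 3 → ℝ) (h01 : a 1 < a 0) (h12 : a 2 < a 1) (s : Fin 3 → ℕ)
    (p q : Fin 3) (hpq : s p < s q) : owa a (upd s {q}) < owa a (upd s {p}) := by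
  apply order_three a h01 h12 <;> fin_cases p <;> fin_cases q <;>
    simp [upd, mn, mx] at hpq ⊢ <;> omega

theorem single_eq (a : Fin 3 → ℝ) (s : Fin 3 → ℕ)
    (p q : Fin 3) (hpq : s p = s q) : owa a (upd s {q}) = owa a (upd s {p}) := by
  have e1 : upd s {q} 0 + upd s {q} 1 + upd s {q} 2 = upd s {p} 0 + upd s {p} 1 + upd s {p} 2 := by
    fin_cases p <;> fin_cases q <;> simp [upd] at hpq ⊢ <;> omega
  have e2 : mn (upd s {q}) = mn (upd s {p}) := by
    fin_cases p <;> fin_cases q <;> simp [upd, mn] at hpq ⊢ <;> omega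
  have e3 : mx (upd s {q}) = mx (upd s {p}) := by
    fin_cases p <;> fin_cases q <;> simp [upd, mx] at hpq ⊢ <;> omega
  rw [owa3, owa3, e1, e2, e3]

theorem pair_lt (a : Fin 3 → ℝ) (h01 : a 1 < a 0) (h12 : a 2 < a 1) (s : Fin 3 → ℕ)
    (p q : Fin 3) (hpq : s p < s q) : owa a (upd s {p}ᶜ) < owa a (upd s {q}ᶜ) := by
  apply order_three a h01 h12 <;> fin_cases p <;> fin_cases q <;>
    simp [upd, mn, mx] at hpq ⊢ <;> omega

theorem pair_eq (a : Fin 3 → ℝ) (s : Fin 3 → ℕ)
    (p q : Fin 3) (hpq : s p = s q) : owa a (upd s {q}ᶜ) = owa a (upd s {p}ᶜ) := by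
  have e1 : upd s {q}ᶜ 0 + upd s {q}ᶜ 1 + upd s {q}ᶜ 2 =
      upd s {p}ᶜ 0 + upd s {p}ᶜ 1 + upd s {p}ᶜ 2 := by
    fin_cases p <;> fin_cases q <;> simp [upd] at hpq ⊢ <;> omega
  have e2 : mn (upd s {q}ᶜ) = mn (upd s {p}ᶜ) := by
    fin_cases p <;> fin_cases q <;> simp [upd, mn] at hpq ⊢ <;> omega
  have e3 : mx (upd s {q}ᶜ) = mx (upd s {p}ᶜ) := by
    fin_cases p <;> fin_cases q <;> simp [upd, mx] at hpq ⊢ <;> omega
  rw [owa3, owa3, e1, e2, e3]

/-- Three voters: free-riding is never harmful if the weights are strictly decreasing and the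
first is less than the sum of the other two. -/
theorem never_three (a : Fin 3 → ℝ) (h01 : a 1 < a 0) (h12 : a 2 < a 1) (h : a 0 < a 1 + a 2) :
    NeverHarmful a := by
  refine never_of_inv a (fun s t => ∃ z, s = upd t {z}) (fun s v => ⟨v, rfl⟩) ?_ ?_
  · rintro s t A C x y ⟨z, rfl⟩ hx hy
    by_cases hxy : x = y
    · subst hxy
      refine ⟨z, ?_⟩
      funext u
      simp only [upd]
      omega
    have e1 := hx.2 y hy.1 (Ne.symm hxy)
    have e2 := hy.2 x hx.1 hxy
    simp only at e1 e2
    have l1 : owa a (upd (upd t {z}) (supp A y)) ≤ owa a (upd (upd t {z}) (supp A x)) := by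
      rcases e1 with e1 | e1
      · exact e1.le
      · exact e1.1.le
    have l2 : owa a (upd t (supp A x)) ≤ owa a (upd t (supp A y)) := by
      rcases e2 with e2 | e2
      · exact e2.le
      · exact e2.1.le
    have l3 : ¬ (owa a (upd (upd t {z}) (supp A y)) = owa a (upd (upd t {z}) (supp A x)) ∧
        owa a (upd t (supp A x)) = owa a (upd t (supp A y))) := by
      rintro ⟨k1, k2⟩
      rcases e1 with e1 | ⟨e1, e1'⟩ <;> rcases e2 with e2 | ⟨e2, e2'⟩
      · linarith
      · linarith
      · linarith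
      · omega
    clear e1 e2 hx hy
    generalize supp A x = X at *
    generalize supp A y = Y at *
    have hc : X.card = Y.card := by
      apply le_antisymm
      · by_contra hlt
        push Not at hlt
        exact absurd l2 (not_le.2 (lt_of_card a h01 h12 h t Y X hlt))
      · by_contra hlt
        push Not at hlt
        exact absurd l1 (not_le.2 (lt_of_card a h01 h12 h _ X Y hlt))
    have hX3 : X.card ≤ 3 := by simpa using X.card_le_univ
    have hcases : X.card = 0 ∨ X.card = 3 ∨ X.card = 1 ∨ X.card = 2 := by omega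
    rcases hcases with h0 | h3 | hone | htwo
    · rw [h0] at hc
      rw [card_eq_zero] at h0
      have hY := card_eq_zero.1 hc.symm
      subst h0
      subst hY
      exact absurd ⟨rfl, rfl⟩ l3
    · rw [h3] at hc
      have hX := (card_eq_iff_eq_univ X).1 (by simpa using h3)
      have hY := (card_eq_iff_eq_univ Y).1 (by simpa using hc.symm)
      subst hX
      subst hY
      exact absurd ⟨rfl, rfl⟩ l3
    · rw [hone] at hc
      obtain ⟨p, rfl⟩ := card_eq_one.1 hone
      obtain ⟨q, rfl⟩ := card_eq_one.1 hc.symm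
      have m1 : upd t {z} p ≤ upd t {z} q := by
        by_contra hlt
        push Not at hlt
        exact absurd l1 (not_le.2 (single_lt a h01 h12 _ q p hlt))
      have m2 : t q ≤ t p := by
        by_contra hlt
        push Not at hlt
        exact absurd l2 (not_le.2 (single_lt a h01 h12 _ p q hlt))
      have m3 : ¬ (upd t {z} p = upd t {z} q ∧ t q = t p) := by
        rintro ⟨k1, k2⟩
        exact l3 ⟨single_eq a _ _ _ k1, single_eq a _ _ _ k2⟩
      have hqz : q = z := by
        by_contra hne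
        simp only [upd, mem_singleton, if_neg hne] at m1 m3
        split_ifs at m1 m3 <;> omega
      subst hqz
      refine ⟨p, ?_⟩
      funext u
      simp only [upd]
    · rw [htwo] at hc
      have hX1 : Xᶜ.card = 1 := by rw [card_compl, htwo]; rfl
      have hY1 : Yᶜ.card = 1 := by rw [card_compl, ← hc]; rfl
      obtain ⟨p, hp⟩ := card_eq_one.1 hX1
      obtain ⟨q, hq⟩ := card_eq_one.1 hY1
      have hX' : X = {p}ᶜ := by rw [← hp, compl_compl]
      have hY' : Y = {q}ᶜ := by rw [← hq, compl_compl]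
      subst hX'
      subst hY'
      have m1 : upd t {z} q ≤ upd t {z} p := by
        by_contra hlt
        push Not at hlt
        exact absurd l1 (not_le.2 (pair_lt a h01 h12 _ p q hlt))
      have m2 : t p ≤ t q := by
        by_contra hlt
        push Not at hlt
        exact absurd l2 (not_le.2 (pair_lt a h01 h12 _ q p hlt))
      have m3 : ¬ (upd t {z} p = upd t {z} q ∧ t q = t p) := by
        rintro ⟨k1, k2⟩
        exact l3 ⟨pair_eq a _ _ _ k1, pair_eq a _ _ _ k2⟩
      have hpz : p = z := by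
        by_contra hne
        simp only [upd, mem_singleton, if_neg hne] at m1 m3
        split_ifs at m1 m3 <;> omega
      subst hpz
      refine ⟨q, ?_⟩
      funext u
      simp only [upd, mem_compl, mem_singleton]
      split_ifs <;> omega
  · rintro s t ⟨z, rfl⟩ v
    simp only [upd]
    split_ifs <;> omega

/-! ### The negative part -/

/-- An issue with two candidates, approved by the voters in the two given sets. -/
abbrev Iss (n : ℕ) := Finset (Fin n) × Finset (Fin n)

/-- The voters approving the winner of a two-candidate issue. -/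
noncomputable def pick {n : ℕ} (a : Fin n → ℝ) (s : Fin n → ℕ) (I : Iss n) : Finset (Fin n) :=
  if owa a (upd s I.1) < owa a (upd s I.2) then I.2 else I.1

/-- The satisfactions after a sequence of two-candidate issues. -/
noncomputable def run {n : ℕ} (a : Fin n → ℝ) : List (Iss n) → (Fin n → ℕ) → Fin n → ℕ
  | [], s => s
  | I :: L, s => run a L (upd s (pick a s I))

/-- A harmful sequence. -/
def Gadget {n : ℕ} (a : Fin n → ℝ) : Prop :=
  ∃ (s : Fin n → ℕ) (v : Fin n) (L : List (Iss n)), run a L s v + 1 < run a L (upd s {v}) v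

/-- The satisfactions after `m` issues `f 0, …, f (m-1)`. -/
noncomputable def prun {n : ℕ} (a : Fin n → ℝ) (s : Fin n → ℕ) (f : ℕ → Iss n) : ℕ → Fin n → ℕ
  | 0 => s
  | m + 1 => upd (prun a s f m) (pick a (prun a s f m) (f m))

theorem prun_congr {n : ℕ} (a : Fin n → ℝ) (s : Fin n → ℕ) (f g : ℕ → Iss n) (m : ℕ)
    (h : ∀ j < m, f j = g j) : prun a s f m = prun a s g m := by
  induction m with
  | zero => rfl
  | succ m ih =>
    have := ih (fun j hj => h j (by omega))
    simp only [prun, this, h m (by omega)]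

theorem prun_add {n : ℕ} (a : Fin n → ℝ) (s : Fin n → ℕ) (f : ℕ → Iss n) (i j : ℕ) :
    prun a s f (i + j) = prun a (prun a s f i) (fun l => f (i + l)) j := by
  induction j with
  | zero => rfl
  | succ j ih =>
    rw [← add_assoc]
    simp only [prun]
    rw [ih]

theorem run_eq_prun {n : ℕ} (a : Fin n → ℝ) (L : List (Iss n)) (s : Fin n → ℕ) :
    run a L s = prun a s (fun j => L.getD j (∅, ∅)) L.length := by
  induction L generalizing s with
  | nil => rfl
  | cons I L ih =>
    rw [List.length_cons, add_comm L.length 1, prun_add]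
    simp only [run, prun, List.getD_cons_zero]
    rw [ih]
    apply prun_congr
    intro j _
    rw [add_comm 1 j, List.getD_cons_succ]

/-- The election with `k` two-candidate issues `f 0, …, f (k-1)`. -/
def elec {n : ℕ} (k : ℕ) (f : ℕ → Iss n) : Election n k where
  C := fun _ => {0, 1}
  nonempty := fun _ => ⟨0, by simp⟩
  A := fun i v => ({0, 1} : Finset ℕ).filter fun c =>
    (c = 0 ∧ v ∈ (f i).1) ∨ (c = 1 ∧ v ∈ (f i).2)
  sub := fun _ _ => filter_subset _ _

/-- Its outcome. -/
noncomputable def outc {n : ℕ} (a : Fin n → ℝ) (k : ℕ) (f : ℕ → Iss n) (i : Fin k) : ℕ :=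
  if owa a (upd (prun a (fun _ => 0) f i) (f i).1) < owa a (upd (prun a (fun _ => 0) f i) (f i).2)
    then 1 else 0

theorem mem_elec {n : ℕ} (a : Fin n → ℝ) (k : ℕ) (f : ℕ → Iss n) (i : Fin k) (v : Fin n) :
    outc a k f i ∈ (elec k f).A i v ↔ v ∈ pick a (prun a (fun _ => 0) f i) (f i) := by
  unfold outc pick elec
  split_ifs <;> simp

theorem sat_elec {n : ℕ} (a : Fin n → ℝ) (k : ℕ) (f : ℕ → Iss n) (v : Fin n) (i : ℕ)
    (hi : i ≤ k) : (elec k f).sat (outc a k f) v i = prun a (fun _ => 0) f i v := by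
  induction i with
  | zero => simp [sat_zero, prun]
  | succ i ih =>
    have := sat_succ (elec k f) (outc a k f) v ⟨i, hi⟩
    simp only at this
    rw [this, ih (by omega)]
    simp only [prun, upd]
    congr 1
    simp only [mem_elec]

theorem isOutcome_elec {n : ℕ} (a : Fin n → ℝ) (k : ℕ) (f : ℕ → Iss n) :
    (elec k f).IsOutcome a (outc a k f) := by
  intro i
  have hsc : ∀ c, (elec k f).score a (outc a k f) i c =
      owa a (fun v => prun a (fun _ => 0) f i v + if c ∈ (elec k f).A i v then 1 else 0) := by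
    intro c
    unfold Election.score
    congr 1
    funext v
    rw [sat_elec a k f v i i.2.le]
  have h0 : (elec k f).score a (outc a k f) i 0 = owa a (upd (prun a (fun _ => 0) f i) (f i).1) := by
    rw [hsc]
    congr 1
    funext v
    simp [elec, upd]
  have h1 : (elec k f).score a (outc a k f) i 1 = owa a (upd (prun a (fun _ => 0) f i) (f i).2) := by
    rw [hsc]
    congr 1
    funext v
    simp [elec, upd]
  by_cases h : owa a (upd (prun a (fun _ => 0) f i) (f i).1) <
      owa a (upd (prun a (fun _ => 0) f i) (f i).2)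
  · have ho : outc a k f i = 1 := if_pos h
    rw [ho]
    refine ⟨by simp [elec], ?_⟩
    intro d hd hne
    have hd' : d = 0 ∨ d = 1 := by simpa [elec] using hd
    rcases hd' with rfl | rfl
    · left; rw [h0, h1]; exact h
    · exact absurd rfl hne
  · have ho : outc a k f i = 0 := if_neg h
    rw [ho]
    refine ⟨by simp [elec], ?_⟩
    intro d hd hne
    have hd' : d = 0 ∨ d = 1 := by simpa [elec] using hd
    rcases hd' with rfl | rfl
    · exact absurd rfl hne
    · push Not at h
      rcases lt_or_eq_of_le h with h | h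
      · left; rw [h0, h1]; exact h
      · right; rw [h0, h1]; exact ⟨h, by norm_num⟩

theorem owa_mono {n : ℕ} (a : Fin n → ℝ) (ha : ∀ j, 0 ≤ a j) (s t : Fin n → ℕ) (h : s ≤ t) :
    owa a s ≤ owa a t := by
  have key : ∀ j, s (Tuple.sort s j) ≤ t (Tuple.sort t j) := by
    intro j
    by_contra hlt
    push Not at hlt
    -- the voters with `t`-value at most `t (sort t j)` are at least `j+1`
    have h1 : (j : ℕ) + 1 ≤ (univ.filter fun u => t u ≤ t (Tuple.sort t j)).card := by
      have : (Finset.Iic j).image (Tuple.sort t) ⊆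
          univ.filter fun u => t u ≤ t (Tuple.sort t j) := by
        intro u hu
        rw [mem_image] at hu
        obtain ⟨l, hl, rfl⟩ := hu
        rw [mem_filter]
        exact ⟨mem_univ _, Tuple.monotone_sort t (Finset.mem_Iic.1 hl)⟩
      have h2 := card_le_card this
      rwa [card_image_of_injective _ (Equiv.injective _), Fin.card_Iic] at h2
    have h2 : (univ.filter fun u => t u ≤ t (Tuple.sort t j)).card ≤ (j : ℕ) := by
      have : (univ.filter fun u => t u ≤ t (Tuple.sort t j)) ⊆
          (Finset.Iio j).image (Tuple.sort s) := by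
        intro u hu
        rw [mem_filter] at hu
        rw [mem_image]
        refine ⟨(Tuple.sort s).symm u, ?_, by simp⟩
        rw [Finset.mem_Iio]
        by_contra hge
        push Not at hge
        have h3 : s (Tuple.sort s j) ≤ s (Tuple.sort s ((Tuple.sort s).symm u)) :=
          Tuple.monotone_sort s hge
        rw [Equiv.apply_symm_apply] at h3
        have h5 : s u ≤ t u := h u
        have h6 := hu.2
        omega
      have h2 := card_le_card this
      rwa [card_image_of_injective _ (Equiv.injective _), Fin.card_Iio] at h2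
    omega
  unfold owa
  apply sum_le_sum
  intro j _
  exact mul_le_mul_of_nonneg_left (by exact_mod_cast key j) (ha j)

theorem harmful_of_gadget {n : ℕ} (a : Fin n → ℝ) (ha : ∀ j, 0 ≤ a j) (hg : Gadget a) :
    ¬ NeverHarmful a := by
  obtain ⟨s, v, L, hL⟩ := hg
  intro hN
  -- `K` forced issues produce the profile `s`
  set K := ∑ u, s u with hK
  have hsK : ∀ u, s u ≤ K := fun u => single_le_sum (fun _ _ => Nat.zero_le _) (mem_univ u)
  let F : Finset (Fin n) → ℕ → Iss n := fun X j =>
    if j < K then (univ.filter fun u => j < s u, univ.filter fun u => j < s u)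
    else if j = K then (X, ∅) else L.getD (j - (K + 1)) (∅, ∅)
  have hF1 : ∀ X, ∀ m ≤ K, prun a (fun _ => 0) (F X) m = fun u => min (s u) m := by
    intro X m hm
    induction m with
    | zero => funext u; simp [prun]
    | succ m ih =>
      simp only [prun]
      rw [ih (by omega)]
      have : F X m = (univ.filter fun u => m < s u, univ.filter fun u => m < s u) := by
        simp only [F]
        rw [if_pos (by omega)]
      rw [this]
      have hp : pick a (fun u => min (s u) m) (univ.filter fun u => m < s u,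
          univ.filter fun u => m < s u) = univ.filter fun u => m < s u := by
        unfold pick
        split_ifs <;> rfl
      rw [hp]
      funext u
      simp only [upd, mem_filter, mem_univ, true_and]
      split_ifs <;> omega
  have hF2 : ∀ X, prun a (fun _ => 0) (F X) K = s := by
    intro X
    rw [hF1 X K le_rfl]
    funext u
    exact min_eq_left (hsK u)
  have hF3 : ∀ X, prun a (fun _ => 0) (F X) (K + 1) = upd s X := by
    intro X
    simp only [prun]
    rw [hF2]
    have : F X K = (X, ∅) := by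
      simp only [F]
      rw [if_neg (by omega)]; simp
    rw [this]
    have hp : pick a s (X, (∅ : Finset (Fin n))) = X := by
      unfold pick
      rw [if_neg]
      push Not
      apply owa_mono a ha
      intro u
      simp [upd]
    rw [hp]
  have hF4 : ∀ X, prun a (fun _ => 0) (F X) (K + 1 + L.length) = run a L (upd s X) := by
    intro X
    rw [prun_add, hF3, run_eq_prun]
    apply prun_congr
    intro j _
    simp only [F]
    rw [if_neg (by omega), if_neg (by omega)]
    congr 1
    omega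
  set k := K + 1 + L.length with hk
  have hKk : K < k := by omega
  have howin : ∀ X, outc a k (F X) ⟨K, hKk⟩ = 0 := by
    intro X
    unfold outc
    simp only
    rw [hF2, if_neg]
    push Not
    have : F X K = (X, ∅) := by
      simp only [F]
      rw [if_neg (by omega)]; simp
    rw [this]
    apply owa_mono a ha
    intro u
    simp [upd]
  have hFne : ∀ X j, j ≠ K → F X j = F ∅ j := by
    intro X j hj
    simp only [F]
    split_ifs <;> rfl
  have hFK : ∀ X, F X K = (X, ∅) := by
    intro X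
    simp only [F]
    rw [if_neg (by omega)]; simp
  have hFR : FreeRides a (elec k (F {v})) (elec k (F ∅)) v ⟨K, hKk⟩ (outc a k (F {v}))
      (outc a k (F ∅)) := by
    refine ⟨isOutcome_elec _ _ _, isOutcome_elec _ _ _, rfl, ?_, ?_, ?_, ?_⟩
    · intro j u hju
      simp only [elec]
      by_cases hj : (j : ℕ) = K
      · have hu : u ≠ v := fun h => hju ⟨Fin.ext hj, h⟩
        rw [hj, hFK, hFK]
        simp [hu]
      · rw [hFne {v} j hj]
    · rw [howin]
      simp [elec, hFK]
    · rw [howin]
      simp [elec, hFK]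
    · rw [howin, howin]
  have hle := hN k _ _ v _ _ _ hFR
  rw [sat_elec a k _ v k le_rfl, hF4] at hle
  -- the true satisfaction in the manipulated run
  have htrue : ∀ m, K + 1 ≤ m → m ≤ k → (elec k (F {v})).sat (outc a k (F ∅)) v m =
      (elec k (F ∅)).sat (outc a k (F ∅)) v m + 1 := by
    intro m hm
    induction m, hm using Nat.le_induction with
    | base =>
      intro _
      have e1 := sat_succ (elec k (F {v})) (outc a k (F ∅)) v ⟨K, hKk⟩
      have e2 := sat_succ (elec k (F ∅)) (outc a k (F ∅)) v ⟨K, hKk⟩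
      simp only at e1 e2
      rw [e1, e2, howin]
      have e3 : (elec k (F {v})).sat (outc a k (F ∅)) v K =
          (elec k (F ∅)).sat (outc a k (F ∅)) v K := by
        unfold Election.sat
        congr 1
        ext j
        simp only [mem_filter, mem_univ, true_and]
        constructor
        · rintro ⟨h1, h2⟩
          refine ⟨h1, ?_⟩
          simp only [elec] at h2 ⊢
          rwa [hFne {v} j (by omega)] at h2
        · rintro ⟨h1, h2⟩
          refine ⟨h1, ?_⟩
          simp only [elec] at h2 ⊢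
          rwa [hFne {v} j (by omega)]
      rw [e3]
      simp [elec, hFK]
    | succ m hm ih =>
      intro hmk
      have e1 := sat_succ (elec k (F {v})) (outc a k (F ∅)) v ⟨m, hmk⟩
      have e2 := sat_succ (elec k (F ∅)) (outc a k (F ∅)) v ⟨m, hmk⟩
      simp only at e1 e2
      rw [e1, e2, ih (by omega)]
      have : (elec k (F {v})).A ⟨m, hmk⟩ v = (elec k (F ∅)).A ⟨m, hmk⟩ v := by
        simp only [elec]
        rw [hFne {v} m (by omega)]
      rw [this]
      omega
  rw [htrue k (by omega) le_rfl, sat_elec a k _ v k le_rfl, hF4] at hle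
  have : upd s ∅ = s := by funext u; simp [upd]
  rw [this] at hle
  omega

/-! ### Embedding a small electorate -/

/-- The profile in which `lo` voters have satisfaction `0`, `hi` voters have `2 * H`, and the
voters in between have `H + s j`. -/
def emb {lo m hi : ℕ} (H : ℕ) (s : Fin m → ℕ) : Fin (lo + (m + hi)) → ℕ :=
  Fin.append (fun _ => 0) (Fin.append (fun j => H + s j) (fun _ => 2 * H))

/-- The embedding of the voters. -/
def ev (lo m hi : ℕ) : Fin m ↪ Fin (lo + (m + hi)) where
  toFun := fun j => Fin.natAdd lo (Fin.castAdd hi j)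
  inj' := fun i j h => by simpa using h

theorem ev_apply (lo m hi : ℕ) (j : Fin m) : ev lo m hi j = Fin.natAdd lo (Fin.castAdd hi j) := rfl

/-- The embedding of an issue. -/
def ei (lo m hi : ℕ) (I : Iss m) : Iss (lo + (m + hi)) := (I.1.map (ev lo m hi), I.2.map (ev lo m hi))

theorem owa_append {n m : ℕ} (a : Fin (n + m) → ℝ) (f : Fin n → ℕ) (g : Fin m → ℕ)
    (h : ∀ i j, f i ≤ g j) : owa a (Fin.append f g) =
      owa (fun j => a (Fin.castAdd m j)) f + owa (fun j => a (Fin.natAdd n j)) g := by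
  let σ : Equiv.Perm (Fin (n + m)) := finSumFinEquiv.symm.trans
    ((Equiv.sumCongr (Tuple.sort f) (Tuple.sort g)).trans finSumFinEquiv)
  have e1 : ∀ i, σ (Fin.castAdd m i) = Fin.castAdd m (Tuple.sort f i) := by
    intro i; simp [σ]
  have e2 : ∀ i, σ (Fin.natAdd n i) = Fin.natAdd n (Tuple.sort g i) := by
    intro i; simp [σ]
  rw [owa_eq a _ σ, Fin.sum_univ_add]
  · simp only [e1, e2, Fin.append_left, Fin.append_right]
    rfl
  · intro x y hxy
    simp only [Function.comp_apply]
    induction x using Fin.addCases with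
    | left i =>
      induction y using Fin.addCases with
      | left j =>
        rw [e1, e1, Fin.append_left, Fin.append_left]
        exact Tuple.monotone_sort f (by
          rw [Fin.le_def] at hxy ⊢
          simpa using hxy)
      | right j =>
        rw [e1, e2, Fin.append_left, Fin.append_right]
        exact h _ _
    | right i =>
      induction y using Fin.addCases with
      | left j =>
        exfalso
        rw [Fin.le_def] at hxy
        simp only [Fin.val_natAdd, Fin.val_castAdd] at hxy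
        omega
      | right j =>
        rw [e2, e2, Fin.append_right, Fin.append_right]
        exact Tuple.monotone_sort g (by
          rw [Fin.le_def] at hxy ⊢
          simpa using hxy)

theorem owa_shift {n : ℕ} (a : Fin n → ℝ) (H : ℕ) (s : Fin n → ℕ) :
    owa a (fun j => H + s j) = H * ∑ j, a j + owa a s := by
  rw [owa_eq a _ (Tuple.sort s) (fun i j hij => by
    have := Tuple.monotone_sort s hij
    simp only [Function.comp_apply] at this ⊢
    omega)]
  unfold owa
  rw [mul_sum, ← sum_add_distrib]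
  apply sum_congr rfl
  intro j _
  push_cast
  ring

theorem owa_emb {lo m hi : ℕ} (a : Fin (lo + (m + hi)) → ℝ) (H : ℕ) (s : Fin m → ℕ)
    (hs : ∀ j, s j ≤ H) : owa a (emb H s) = owa (fun j => a (ev lo m hi j)) s +
      (H * (∑ j, a (ev lo m hi j)) +
      owa (fun j => a (Fin.natAdd lo (Fin.natAdd m j))) (fun _ : Fin hi => 2 * H)) := by
  unfold emb
  rw [owa_append a _ _ (fun i j => Nat.zero_le _), owa_append _ _ _ (fun i j => by
    have := hs i; omega), owa_shift]
  have : owa (fun j => a (Fin.castAdd (m + hi) j)) (fun _ : Fin lo => 0) = 0 := by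
    unfold owa; simp
  rw [this]
  simp only [ev_apply]
  ring

theorem upd_emb {lo m hi : ℕ} (H : ℕ) (s : Fin m → ℕ) (X : Finset (Fin m)) :
    upd (emb H s : Fin (lo + (m + hi)) → ℕ) (X.map (ev lo m hi)) = emb H (upd s X) := by
  funext x
  induction x using Fin.addCases with
  | left i =>
    have : Fin.castAdd (m + hi) i ∉ X.map (ev lo m hi) := by
      rw [mem_map]
      rintro ⟨j, _, h⟩
      rw [ev_apply] at h
      have := congrArg Fin.val h
      simp only [Fin.val_natAdd, Fin.val_castAdd] at this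
      omega
    simp [upd, emb, this]
  | right x =>
    induction x using Fin.addCases with
    | left i =>
      have : Fin.natAdd lo (Fin.castAdd hi i) ∈ X.map (ev lo m hi) ↔ i ∈ X := by
        constructor
        · intro h
          obtain ⟨j, hj, he⟩ := mem_map.1 h
          have : j = i := (ev lo m hi).injective (by rw [he]; rfl)
          exact this ▸ hj
        · intro h
          exact mem_map.2 ⟨i, h, rfl⟩
      simp only [upd, emb, Fin.append_right, Fin.append_left, this]
      omega
    | right i =>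
      have : Fin.natAdd lo (Fin.natAdd m i) ∉ X.map (ev lo m hi) := by
        rw [mem_map]
        rintro ⟨j, _, h⟩
        rw [ev_apply] at h
        have := congrArg Fin.val h
        simp only [Fin.val_natAdd, Fin.val_castAdd] at this
        omega
      simp [upd, emb, this]

theorem pick_emb {lo m hi : ℕ} (a : Fin (lo + (m + hi)) → ℝ) (H : ℕ) (s : Fin m → ℕ)
    (hs : ∀ j, s j + 1 ≤ H) (I : Iss m) : pick a (emb H s) (ei lo m hi I) =
      (pick (fun j => a (ev lo m hi j)) s I).map (ev lo m hi) := by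
  unfold pick ei
  simp only
  have hb : ∀ X j, upd s X j ≤ H := by
    intro X j
    have := hs j
    simp only [upd]
    split_ifs <;> omega
  rw [upd_emb, upd_emb, owa_emb a H _ (hb _), owa_emb a H _ (hb _)]
  simp only [add_lt_add_iff_right]
  split_ifs <;> rfl

theorem run_emb {lo m hi : ℕ} (a : Fin (lo + (m + hi)) → ℝ) (H : ℕ) (L : List (Iss m))
    (s : Fin m → ℕ) (hs : ∀ j, s j + L.length ≤ H) :
    run a (L.map (ei lo m hi)) (emb H s) = emb H (run (fun j => a (ev lo m hi j)) L s) := by
  induction L generalizing s with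
  | nil => rfl
  | cons I L ih =>
    simp only [List.length_cons] at hs
    simp only [List.map_cons, run]
    rw [pick_emb a H s (fun j => by have := hs j; omega), upd_emb, ih]
    intro j
    have := hs j
    simp only [upd]
    split_ifs <;> omega

theorem gadget_emb {lo m hi : ℕ} (a : Fin (lo + (m + hi)) → ℝ)
    (h : Gadget (fun j => a (ev lo m hi j))) : Gadget a := by
  obtain ⟨s, v, L, hL⟩ := h
  set H := ∑ u, s u + L.length + 1 with hH
  have hsK : ∀ u, s u ≤ ∑ u, s u := fun u => single_le_sum (fun _ _ => Nat.zero_le _) (mem_univ u)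
  refine ⟨emb H s, ev lo m hi v, L.map (ei lo m hi), ?_⟩
  rw [run_emb a H L s (fun j => by have := hsK j; omega)]
  have : upd (emb H s : Fin (lo + (m + hi)) → ℕ) {ev lo m hi v} = emb H (upd s {v}) := by
    rw [← upd_emb, map_singleton]
  rw [this, run_emb a H L _ (fun j => by
    have := hsK j
    simp only [upd]
    split_ifs <;> omega)]
  have he : ∀ t : Fin m → ℕ, (emb H t : Fin (lo + (m + hi)) → ℕ) (ev lo m hi v) = H + t v := by
    intro t
    rw [ev_apply]
    simp [emb]
  rw [he, he]
  omega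

/-- A window of consecutive weights. -/
theorem window {n : ℕ} (a : Fin n → ℝ) (p m : ℕ) (h : p + m ≤ n)
    (hg : Gadget (fun j : Fin m => a ⟨p + j, by omega⟩)) : Gadget a := by
  obtain ⟨hi, rfl⟩ : ∃ hi, n = p + (m + hi) := ⟨n - p - m, by omega⟩
  apply gadget_emb
  exact hg

/-! ### The gadgets -/

theorem pick_fst {n : ℕ} {a : Fin n → ℝ} {s : Fin n → ℕ} {X Y : Finset (Fin n)}
    (h : owa a (upd s Y) ≤ owa a (upd s X)) : pick a s (X, Y) = X := by
  unfold pick
  rw [if_neg (not_lt.2 h)]

theorem pick_snd {n : ℕ} {a : Fin n → ℝ} {s : Fin n → ℕ} {X Y : Finset (Fin n)}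
    (h : owa a (upd s X) < owa a (upd s Y)) : pick a s (X, Y) = Y := by
  unfold pick
  rw [if_pos h]

theorem pick_same {n : ℕ} (a : Fin n → ℝ) (s : Fin n → ℕ) (X : Finset (Fin n)) :
    pick a s (X, X) = X := by
  unfold pick
  split_ifs <;> rfl

theorem gad0 (b : Fin 2 → ℝ) (h : b 0 < b 1) : Gadget b := by
  refine ⟨![0, 0], 0, [({1}, {0})], ?_⟩
  have u0 : upd ![0, 0] {(0 : Fin 2)} = ![1, 0] := by decide
  have u1 : upd ![0, 0] {(1 : Fin 2)} = ![0, 1] := by decide
  have u2 : upd ![1, 0] {(0 : Fin 2)} = ![2, 0] := by decide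
  have u3 : upd ![1, 0] {(1 : Fin 2)} = ![1, 1] := by decide
  have p0 : pick b ![0, 0] ({1}, {0}) = {1} := by
    apply pick_fst
    rw [u0, u1, owa_two, owa_two]
    simp
  have p1 : pick b ![1, 0] ({1}, {0}) = {0} := by
    apply pick_snd
    rw [u2, u3, owa_two, owa_two]
    simp
    linarith
  simp only [run, p0, u0, p1, u1, u2]
  simp

set_option linter.unusedSimpArgs false

theorem owa_val4 (b : Fin 4 → ℝ) (s g : Fin 4 → ℕ) (f f' : Fin 4 → Fin 4)
    (h1 : ∀ i, f' (f i) = i) (h2 : ∀ i, f (f' i) = i) (h3 : ∀ i, s (f i) = g i)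
    (h4 : ∀ i j, i ≤ j → g i ≤ g j) :
    owa b s = b 0 * g 0 + b 1 * g 1 + b 2 * g 2 + b 3 * g 3 := by
  rw [owa_eq b s ⟨f, f', h1, h2⟩ (fun i j hij => by
    simp only [Function.comp_apply, Equiv.coe_fn_mk, h3]
    exact h4 i j hij), Fin.sum_univ_four]
  simp only [Equiv.coe_fn_mk, h3]

theorem gad1 (b : Fin 3 → ℝ) (h : b 0 = b 1) (h' : b 2 < b 1) : Gadget b := by
  refine ⟨![0, 0, 1], 0, [({0, 2}, {0, 1}), ({1, 2}, {1, 2}), ({1, 2}, {0, 1})], ?_⟩
  have u0 : upd ![0, 0, 1] ({0} : Finset (Fin 3)) = ![1, 0, 1] := by decide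
  have u1 : upd ![1, 0, 1] ({0, 2} : Finset (Fin 3)) = ![2, 0, 2] := by decide
  have u2 : upd ![1, 0, 1] ({0, 1} : Finset (Fin 3)) = ![2, 1, 1] := by decide
  have p0 : pick b ![1, 0, 1] (({0, 2} : Finset (Fin 3)), ({0, 1} : Finset (Fin 3))) = ({0, 2} : Finset (Fin 3)) := by
    apply pick_fst
    rw [u1, u2, owa_three, owa_three]
    simp
    try linarith
  have u3 : upd ![2, 0, 2] ({1, 2} : Finset (Fin 3)) = ![2, 1, 3] := by decide
  have p1 : pick b ![2, 0, 2] (({1, 2} : Finset (Fin 3)), ({1, 2} : Finset (Fin 3))) = ({1, 2} : Finset (Fin 3)) := pick_same b _ _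
  have u4 : upd ![2, 1, 3] ({1, 2} : Finset (Fin 3)) = ![2, 2, 4] := by decide
  have u5 : upd ![2, 1, 3] ({0, 1} : Finset (Fin 3)) = ![3, 2, 3] := by decide
  have p2 : pick b ![2, 1, 3] (({1, 2} : Finset (Fin 3)), ({0, 1} : Finset (Fin 3))) = ({0, 1} : Finset (Fin 3)) := by
    apply pick_snd
    rw [u4, u5, owa_three, owa_three]
    simp
    try linarith
  have u6 : upd ![0, 0, 1] ({0, 2} : Finset (Fin 3)) = ![1, 0, 2] := by decide
  have u7 : upd ![0, 0, 1] ({0, 1} : Finset (Fin 3)) = ![1, 1, 1] := by decide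
  have p3 : pick b ![0, 0, 1] (({0, 2} : Finset (Fin 3)), ({0, 1} : Finset (Fin 3))) = ({0, 1} : Finset (Fin 3)) := by
    apply pick_snd
    rw [u6, u7, owa_three, owa_three]
    simp
    try linarith
  have u8 : upd ![1, 1, 1] ({1, 2} : Finset (Fin 3)) = ![1, 2, 2] := by decide
  have p4 : pick b ![1, 1, 1] (({1, 2} : Finset (Fin 3)), ({1, 2} : Finset (Fin 3))) = ({1, 2} : Finset (Fin 3)) := pick_same b _ _
  have u9 : upd ![1, 2, 2] ({1, 2} : Finset (Fin 3)) = ![1, 3, 3] := by decide
  have u10 : upd ![1, 2, 2] ({0, 1} : Finset (Fin 3)) = ![2, 3, 2] := by decide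
  have p5 : pick b ![1, 2, 2] (({1, 2} : Finset (Fin 3)), ({0, 1} : Finset (Fin 3))) = ({1, 2} : Finset (Fin 3)) := by
    apply pick_fst
    rw [u9, u10, owa_three, owa_three]
    simp
    try linarith
  simp only [run, u0, u1, u2, u3, u4, u5, u6, u7, u8, u9, u10, p0, p1, p2, p3, p4, p5]
  decide

theorem gad2 (b : Fin 3 → ℝ) (h : b 1 < b 0) (h' : b 1 = b 2) : Gadget b := by
  refine ⟨![0, 1, 2], 0, [({0, 2}, {0, 1}), ({0}, {0}), ({0}, {1})], ?_⟩
  have u0 : upd ![0, 1, 2] ({0} : Finset (Fin 3)) = ![1, 1, 2] := by decide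
  have u1 : upd ![1, 1, 2] ({0, 2} : Finset (Fin 3)) = ![2, 1, 3] := by decide
  have u2 : upd ![1, 1, 2] ({0, 1} : Finset (Fin 3)) = ![2, 2, 2] := by decide
  have p0 : pick b ![1, 1, 2] (({0, 2} : Finset (Fin 3)), ({0, 1} : Finset (Fin 3))) = ({0, 1} : Finset (Fin 3)) := by
    apply pick_snd
    rw [u1, u2, owa_three, owa_three]
    simp
    try linarith
  have u3 : upd ![2, 2, 2] ({0} : Finset (Fin 3)) = ![3, 2, 2] := by decide
  have p1 : pick b ![2, 2, 2] (({0} : Finset (Fin 3)), ({0} : Finset (Fin 3))) = ({0} : Finset (Fin 3)) := pick_same b _ _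
  have u4 : upd ![3, 2, 2] ({0} : Finset (Fin 3)) = ![4, 2, 2] := by decide
  have u5 : upd ![3, 2, 2] ({1} : Finset (Fin 3)) = ![3, 3, 2] := by decide
  have p2 : pick b ![3, 2, 2] (({0} : Finset (Fin 3)), ({1} : Finset (Fin 3))) = ({0} : Finset (Fin 3)) := by
    apply pick_fst
    rw [u4, u5, owa_three, owa_three]
    simp
    try linarith
  have u6 : upd ![0, 1, 2] ({0, 2} : Finset (Fin 3)) = ![1, 1, 3] := by decide
  have u7 : upd ![0, 1, 2] ({0, 1} : Finset (Fin 3)) = ![1, 2, 2] := by decide
  have p3 : pick b ![0, 1, 2] (({0, 2} : Finset (Fin 3)), ({0, 1} : Finset (Fin 3))) = ({0, 2} : Finset (Fin 3)) := by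
    apply pick_fst
    rw [u6, u7, owa_three, owa_three]
    simp
    try linarith
  have u8 : upd ![1, 1, 3] ({0} : Finset (Fin 3)) = ![2, 1, 3] := by decide
  have p4 : pick b ![1, 1, 3] (({0} : Finset (Fin 3)), ({0} : Finset (Fin 3))) = ({0} : Finset (Fin 3)) := pick_same b _ _
  have u9 : upd ![2, 1, 3] ({0} : Finset (Fin 3)) = ![3, 1, 3] := by decide
  have u10 : upd ![2, 1, 3] ({1} : Finset (Fin 3)) = ![2, 2, 3] := by decide
  have p5 : pick b ![2, 1, 3] (({0} : Finset (Fin 3)), ({1} : Finset (Fin 3))) = ({1} : Finset (Fin 3)) := by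
    apply pick_snd
    rw [u9, u10, owa_three, owa_three]
    simp
    try linarith
  simp only [run, u0, u1, u2, u3, u4, u5, u6, u7, u8, u9, u10, p0, p1, p2, p3, p4, p5]
  decide

theorem gad3 (b : Fin 3 → ℝ) (h : b 2 = 0) (h' : 0 < b 1) (h'' : b 1 < b 0) : Gadget b := by
  refine ⟨![0, 1, 1], 0, [({0}, {0, 1}), ({0, 2}, {0, 2}), ({0, 2}, {1})], ?_⟩
  have u0 : upd ![0, 1, 1] ({0} : Finset (Fin 3)) = ![1, 1, 1] := by decide
  have u1 : upd ![1, 1, 1] ({0} : Finset (Fin 3)) = ![2, 1, 1] := by decide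
  have u2 : upd ![1, 1, 1] ({0, 1} : Finset (Fin 3)) = ![2, 2, 1] := by decide
  have p0 : pick b ![1, 1, 1] (({0} : Finset (Fin 3)), ({0, 1} : Finset (Fin 3))) = ({0, 1} : Finset (Fin 3)) := by
    apply pick_snd
    rw [u1, u2, owa_three, owa_three]
    simp
    try linarith
  have u3 : upd ![2, 2, 1] ({0, 2} : Finset (Fin 3)) = ![3, 2, 2] := by decide
  have p1 : pick b ![2, 2, 1] (({0, 2} : Finset (Fin 3)), ({0, 2} : Finset (Fin 3))) = ({0, 2} : Finset (Fin 3)) := pick_same b _ _
  have u4 : upd ![3, 2, 2] ({0, 2} : Finset (Fin 3)) = ![4, 2, 3] := by decide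
  have u5 : upd ![3, 2, 2] ({1} : Finset (Fin 3)) = ![3, 3, 2] := by decide
  have p2 : pick b ![3, 2, 2] (({0, 2} : Finset (Fin 3)), ({1} : Finset (Fin 3))) = ({0, 2} : Finset (Fin 3)) := by
    apply pick_fst
    rw [u4, u5, owa_three, owa_three]
    simp
    try linarith
  have u6 : upd ![0, 1, 1] ({0, 1} : Finset (Fin 3)) = ![1, 2, 1] := by decide
  have p3 : pick b ![0, 1, 1] (({0} : Finset (Fin 3)), ({0, 1} : Finset (Fin 3))) = ({0} : Finset (Fin 3)) := by
    apply pick_fst
    rw [u0, u6, owa_three, owa_three]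
    simp
    try linarith
  have u7 : upd ![1, 1, 1] ({0, 2} : Finset (Fin 3)) = ![2, 1, 2] := by decide
  have p4 : pick b ![1, 1, 1] (({0, 2} : Finset (Fin 3)), ({0, 2} : Finset (Fin 3))) = ({0, 2} : Finset (Fin 3)) := pick_same b _ _
  have u8 : upd ![2, 1, 2] ({0, 2} : Finset (Fin 3)) = ![3, 1, 3] := by decide
  have u9 : upd ![2, 1, 2] ({1} : Finset (Fin 3)) = ![2, 2, 2] := by decide
  have p5 : pick b ![2, 1, 2] (({0, 2} : Finset (Fin 3)), ({1} : Finset (Fin 3))) = ({1} : Finset (Fin 3)) := by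
    apply pick_snd
    rw [u8, u9, owa_three, owa_three]
    simp
    try linarith
  simp only [run, u0, u1, u2, u3, u4, u5, u6, u7, u8, u9, p0, p1, p2, p3, p4, p5]
  decide

theorem gad4 (b : Fin 3 → ℝ) (h : 0 < b 2) (h' : b 2 < b 1) (h'' : b 1 + b 2 ≤ b 0) : Gadget b := by
  refine ⟨![0, 1, 1], 0, [({0}, {1, 2}), ({0}, {0}), ({0}, {1}), ({2}, {0, 1})], ?_⟩
  have u0 : upd ![0, 1, 1] ({0} : Finset (Fin 3)) = ![1, 1, 1] := by decide
  have u1 : upd ![1, 1, 1] ({0} : Finset (Fin 3)) = ![2, 1, 1] := by decide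
  have u2 : upd ![1, 1, 1] ({1, 2} : Finset (Fin 3)) = ![1, 2, 2] := by decide
  have p0 : pick b ![1, 1, 1] (({0} : Finset (Fin 3)), ({1, 2} : Finset (Fin 3))) = ({1, 2} : Finset (Fin 3)) := by
    apply pick_snd
    rw [u1, u2, owa_three, owa_three]
    simp
    try linarith
  have u3 : upd ![1, 2, 2] ({0} : Finset (Fin 3)) = ![2, 2, 2] := by decide
  have p1 : pick b ![1, 2, 2] (({0} : Finset (Fin 3)), ({0} : Finset (Fin 3))) = ({0} : Finset (Fin 3)) := pick_same b _ _
  have u4 : upd ![2, 2, 2] ({0} : Finset (Fin 3)) = ![3, 2, 2] := by decide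
  have u5 : upd ![2, 2, 2] ({1} : Finset (Fin 3)) = ![2, 3, 2] := by decide
  have p2 : pick b ![2, 2, 2] (({0} : Finset (Fin 3)), ({1} : Finset (Fin 3))) = ({0} : Finset (Fin 3)) := by
    apply pick_fst
    rw [u4, u5, owa_three, owa_three]
    simp
    try linarith
  have u6 : upd ![3, 2, 2] ({2} : Finset (Fin 3)) = ![3, 2, 3] := by decide
  have u7 : upd ![3, 2, 2] ({0, 1} : Finset (Fin 3)) = ![4, 3, 2] := by decide
  have p3 : pick b ![3, 2, 2] (({2} : Finset (Fin 3)), ({0, 1} : Finset (Fin 3))) = ({0, 1} : Finset (Fin 3)) := by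
    apply pick_snd
    rw [u6, u7, owa_three, owa_three]
    simp
    try linarith
  have u8 : upd ![0, 1, 1] ({1, 2} : Finset (Fin 3)) = ![0, 2, 2] := by decide
  have p4 : pick b ![0, 1, 1] (({0} : Finset (Fin 3)), ({1, 2} : Finset (Fin 3))) = ({0} : Finset (Fin 3)) := by
    apply pick_fst
    rw [u0, u8, owa_three, owa_three]
    simp
    try linarith
  have p5 : pick b ![1, 1, 1] (({0} : Finset (Fin 3)), ({0} : Finset (Fin 3))) = ({0} : Finset (Fin 3)) := pick_same b _ _
  have u9 : upd ![2, 1, 1] ({0} : Finset (Fin 3)) = ![3, 1, 1] := by decide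
  have u10 : upd ![2, 1, 1] ({1} : Finset (Fin 3)) = ![2, 2, 1] := by decide
  have p6 : pick b ![2, 1, 1] (({0} : Finset (Fin 3)), ({1} : Finset (Fin 3))) = ({1} : Finset (Fin 3)) := by
    apply pick_snd
    rw [u9, u10, owa_three, owa_three]
    simp
    try linarith
  have u11 : upd ![2, 2, 1] ({2} : Finset (Fin 3)) = ![2, 2, 2] := by decide
  have u12 : upd ![2, 2, 1] ({0, 1} : Finset (Fin 3)) = ![3, 3, 1] := by decide
  have p7 : pick b ![2, 2, 1] (({2} : Finset (Fin 3)), ({0, 1} : Finset (Fin 3))) = ({2} : Finset (Fin 3)) := by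
    apply pick_fst
    rw [u11, u12, owa_three, owa_three]
    simp
    try linarith
  simp only [run, u0, u1, u2, u3, u4, u5, u6, u7, u8, u9, u10, u11, u12, p0, p1, p2, p3, p4, p5, p6, p7]
  decide

theorem gad5 (b : Fin 4 → ℝ) (h : b 1 < b 0) (h' : b 2 < b 1) (h'' : b 3 < b 2) : Gadget b := by
  refine ⟨![0, 1, 1, 1], 0, [({1}, {0}), ({1, 2}, {0, 3}), ({1, 3}, {0, 2})], ?_⟩
  have u0 : upd ![0, 1, 1, 1] ({0} : Finset (Fin 4)) = ![1, 1, 1, 1] := by decide
  have u1 : upd ![1, 1, 1, 1] ({1} : Finset (Fin 4)) = ![1, 2, 1, 1] := by decide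
  have u2 : upd ![1, 1, 1, 1] ({0} : Finset (Fin 4)) = ![2, 1, 1, 1] := by decide
  have v0 : owa b ![1, 2, 1, 1] = b 0 * 1 + b 1 * 1 + b 2 * 1 + b 3 * 2 := by
    rw [owa_val4 b _ ![1, 1, 1, 2] ![0, 2, 3, 1] ![0, 3, 1, 2] (by decide) (by decide) (by decide) (by decide)]
    simp
  have v1 : owa b ![2, 1, 1, 1] = b 0 * 1 + b 1 * 1 + b 2 * 1 + b 3 * 2 := by
    rw [owa_val4 b _ ![1, 1, 1, 2] ![1, 2, 3, 0] ![3, 0, 1, 2] (by decide) (by decide) (by decide) (by decide)]
    simp
  have p0 : pick b ![1, 1, 1, 1] (({1} : Finset (Fin 4)), ({0} : Finset (Fin 4))) = ({1} : Finset (Fin 4)) := by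
    apply pick_fst
    rw [u1, u2, v0, v1]
  have u3 : upd ![1, 2, 1, 1] ({1, 2} : Finset (Fin 4)) = ![1, 3, 2, 1] := by decide
  have u4 : upd ![1, 2, 1, 1] ({0, 3} : Finset (Fin 4)) = ![2, 2, 1, 2] := by decide
  have v2 : owa b ![1, 3, 2, 1] = b 0 * 1 + b 1 * 1 + b 2 * 2 + b 3 * 3 := by
    rw [owa_val4 b _ ![1, 1, 2, 3] ![0, 3, 2, 1] ![0, 3, 2, 1] (by decide) (by decide) (by decide) (by decide)]
    simp
  have v3 : owa b ![2, 2, 1, 2] = b 0 * 1 + b 1 * 2 + b 2 * 2 + b 3 * 2 := by
    rw [owa_val4 b _ ![1, 2, 2, 2] ![2, 0, 1, 3] ![1, 2, 0, 3] (by decide) (by decide) (by decide) (by decide)]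
    simp
  have p1 : pick b ![1, 2, 1, 1] (({1, 2} : Finset (Fin 4)), ({0, 3} : Finset (Fin 4))) = ({0, 3} : Finset (Fin 4)) := by
    apply pick_snd
    rw [u3, u4, v2, v3]
    linarith
  have u5 : upd ![2, 2, 1, 2] ({1, 3} : Finset (Fin 4)) = ![2, 3, 1, 3] := by decide
  have u6 : upd ![2, 2, 1, 2] ({0, 2} : Finset (Fin 4)) = ![3, 2, 2, 2] := by decide
  have v4 : owa b ![2, 3, 1, 3] = b 0 * 1 + b 1 * 2 + b 2 * 3 + b 3 * 3 := by
    rw [owa_val4 b _ ![1, 2, 3, 3] ![2, 0, 1, 3] ![1, 2, 0, 3] (by decide) (by decide) (by decide) (by decide)]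
    simp
  have v5 : owa b ![3, 2, 2, 2] = b 0 * 2 + b 1 * 2 + b 2 * 2 + b 3 * 3 := by
    rw [owa_val4 b _ ![2, 2, 2, 3] ![1, 2, 3, 0] ![3, 0, 1, 2] (by decide) (by decide) (by decide) (by decide)]
    simp
  have p2 : pick b ![2, 2, 1, 2] (({1, 3} : Finset (Fin 4)), ({0, 2} : Finset (Fin 4))) = ({0, 2} : Finset (Fin 4)) := by
    apply pick_snd
    rw [u5, u6, v4, v5]
    linarith
  have u7 : upd ![0, 1, 1, 1] ({1} : Finset (Fin 4)) = ![0, 2, 1, 1] := by decide
  have v6 : owa b ![0, 2, 1, 1] = b 0 * 0 + b 1 * 1 + b 2 * 1 + b 3 * 2 := by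
    rw [owa_val4 b _ ![0, 1, 1, 2] ![0, 2, 3, 1] ![0, 3, 1, 2] (by decide) (by decide) (by decide) (by decide)]
    simp
  have v7 : owa b ![1, 1, 1, 1] = b 0 * 1 + b 1 * 1 + b 2 * 1 + b 3 * 1 := by
    rw [owa_val4 b _ ![1, 1, 1, 1] ![0, 1, 2, 3] ![0, 1, 2, 3] (by decide) (by decide) (by decide) (by decide)]
    simp
  have p3 : pick b ![0, 1, 1, 1] (({1} : Finset (Fin 4)), ({0} : Finset (Fin 4))) = ({0} : Finset (Fin 4)) := by
    apply pick_snd
    rw [u7, u0, v6, v7]
    linarith
  have u8 : upd ![1, 1, 1, 1] ({1, 2} : Finset (Fin 4)) = ![1, 2, 2, 1] := by decide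
  have u9 : upd ![1, 1, 1, 1] ({0, 3} : Finset (Fin 4)) = ![2, 1, 1, 2] := by decide
  have v8 : owa b ![1, 2, 2, 1] = b 0 * 1 + b 1 * 1 + b 2 * 2 + b 3 * 2 := by
    rw [owa_val4 b _ ![1, 1, 2, 2] ![0, 3, 1, 2] ![0, 2, 3, 1] (by decide) (by decide) (by decide) (by decide)]
    simp
  have v9 : owa b ![2, 1, 1, 2] = b 0 * 1 + b 1 * 1 + b 2 * 2 + b 3 * 2 := by
    rw [owa_val4 b _ ![1, 1, 2, 2] ![1, 2, 0, 3] ![2, 0, 1, 3] (by decide) (by decide) (by decide) (by decide)]
    simp
  have p4 : pick b ![1, 1, 1, 1] (({1, 2} : Finset (Fin 4)), ({0, 3} : Finset (Fin 4))) = ({1, 2} : Finset (Fin 4)) := by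
    apply pick_fst
    rw [u8, u9, v8, v9]
  have u10 : upd ![1, 2, 2, 1] ({1, 3} : Finset (Fin 4)) = ![1, 3, 2, 2] := by decide
  have u11 : upd ![1, 2, 2, 1] ({0, 2} : Finset (Fin 4)) = ![2, 2, 3, 1] := by decide
  have v10 : owa b ![1, 3, 2, 2] = b 0 * 1 + b 1 * 2 + b 2 * 2 + b 3 * 3 := by
    rw [owa_val4 b _ ![1, 2, 2, 3] ![0, 2, 3, 1] ![0, 3, 1, 2] (by decide) (by decide) (by decide) (by decide)]
    simp
  have v11 : owa b ![2, 2, 3, 1] = b 0 * 1 + b 1 * 2 + b 2 * 2 + b 3 * 3 := by
    rw [owa_val4 b _ ![1, 2, 2, 3] ![3, 0, 1, 2] ![1, 2, 3, 0] (by decide) (by decide) (by decide) (by decide)]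
    simp
  have p5 : pick b ![1, 2, 2, 1] (({1, 3} : Finset (Fin 4)), ({0, 2} : Finset (Fin 4))) = ({1, 3} : Finset (Fin 4)) := by
    apply pick_fst
    rw [u10, u11, v10, v11]
  simp only [run, u0, u1, u2, u3, u4, u5, u6, u7, u8, u9, u10, u11, p0, p1, p2, p3, p4, p5]
  decide



/-! ### The classification -/

theorem gadget_or {n : ℕ} (a : Fin n → ℝ) (A : ℕ → ℝ) (hA : ∀ i (h : i < n), a ⟨i, h⟩ = A i)
    (hne : ¬ ∀ i j, a i = a j) :
    Gadget a ∨ ∀ p, p + 1 < n → A (p + 1) < A p := by
  by_cases g0 : ∃ p, p + 1 < n ∧ A p < A (p + 1)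
  · obtain ⟨p, hp, h⟩ := g0
    left
    apply window a p 2 (by omega)
    apply gad0
    rw [hA, hA]
    exact h
  by_cases g1 : ∃ p, p + 2 < n ∧ A p = A (p + 1) ∧ A (p + 2) < A (p + 1)
  · obtain ⟨p, hp, h, h'⟩ := g1
    left
    apply window a p 3 (by omega)
    apply gad1
    · rw [hA, hA]; exact h
    · rw [hA, hA]; exact h'
  by_cases g2 : ∃ p, p + 2 < n ∧ A (p + 1) < A p ∧ A (p + 1) = A (p + 2)
  · obtain ⟨p, hp, h, h'⟩ := g2
    left
    apply window a p 3 (by omega)
    apply gad2
    · rw [hA, hA]; exact h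
    · rw [hA, hA]; exact h'
  push Not at g0 g1 g2
  right
  have up : ∀ p, p + 2 < n → A (p + 1) < A p → A (p + 2) < A (p + 1) := by
    intro p hp h
    exact lt_of_le_of_ne (g0 (p + 1) (by omega)) (Ne.symm (g2 p hp h))
  have down : ∀ p, p + 2 < n → A (p + 2) < A (p + 1) → A (p + 1) < A p := by
    intro p hp h
    refine lt_of_le_of_ne (g0 p (by omega)) (fun he => ?_)
    exact absurd h (not_lt.2 (g1 p hp he.symm))
  -- all consecutive pairs are strict as soon as one is
  have all_of : ∀ q, q + 1 < n → A (q + 1) < A q → ∀ p, p + 1 < n → A (p + 1) < A p := by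
    intro q hq hlt
    have h0 : A 1 < A 0 := by
      have : ∀ r, r ≤ q → A (q - r + 1) < A (q - r) := by
        intro r
        induction r with
        | zero => intro _; simpa using hlt
        | succ r ih =>
          intro hr
          have := ih (by omega)
          have e : q - r = q - (r + 1) + 1 := by omega
          rw [e] at this
          exact down _ (by omega) this
      simpa using this q le_rfl
    intro p
    induction p with
    | zero => intro _; exact h0
    | succ p ih => intro hp; exact up p hp (ih (by omega))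
  by_contra hcon
  have hle : ∀ q, q + 1 < n → A q = A (q + 1) := by
    intro q hq
    by_contra hneq
    exact hcon (all_of q hq (lt_of_le_of_ne (g0 q hq) (Ne.symm hneq)))
  apply hne
  have h0 : ∀ i, i < n → A i = A 0 := by
    intro i
    induction i with
    | zero => intro _; rfl
    | succ i ih => intro hi; rw [← hle i hi]; exact ih (by omega)
  rintro ⟨i, hi⟩ ⟨j, hj⟩
  rw [hA, hA, h0 i hi, h0 j hj]

theorem gadget_ge_four {n : ℕ} (a : Fin n → ℝ) (hn : 4 ≤ n) (hne : ¬ ∀ i j, a i = a j) :
    Gadget a := by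
  obtain ⟨A, hA⟩ : ∃ A : ℕ → ℝ, ∀ i (h : i < n), a ⟨i, h⟩ = A i :=
    ⟨fun i => if h : i < n then a ⟨i, h⟩ else 0, fun i h => by simp [h]⟩
  rcases gadget_or a A hA hne with h | h
  · exact h
  · apply window a 0 4 (by omega)
    apply gad5
    · have := h 0 (by omega)
      rw [← hA (0 + 1) (by omega), ← hA 0 (by omega)] at this
      exact this
    · have := h 1 (by omega)
      rw [← hA (1 + 1) (by omega), ← hA 1 (by omega)] at this
      exact this
    · have := h 2 (by omega)
      rw [← hA (2 + 1) (by omega), ← hA 2 (by omega)] at this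
      exact this

theorem gadget_three (a : Fin 3 → ℝ) (ha : ∀ j, 0 ≤ a j) (hne : ¬ ∀ j, a j = a 0)
    (h3 : ¬ (a 2 < a 1 ∧ a 1 < a 0 ∧ a 0 < a 1 + a 2)) : Gadget a := by
  obtain ⟨A, hA⟩ : ∃ A : ℕ → ℝ, ∀ i (h : i < 3), a ⟨i, h⟩ = A i :=
    ⟨fun i => if h : i < 3 then a ⟨i, h⟩ else 0, fun i h => by simp [h]⟩
  rcases gadget_or a A hA (fun h => hne fun j => h j 0) with h | h
  · exact h
  · have h1 : a 1 < a 0 := by
      have := h 0 (by omega)
      rw [← hA (0 + 1) (by omega), ← hA 0 (by omega)] at this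
      exact this
    have h2 : a 2 < a 1 := by
      have := h 1 (by omega)
      rw [← hA (1 + 1) (by omega), ← hA 1 (by omega)] at this
      exact this
    rcases (ha 2).lt_or_eq with h4 | h4
    · apply gad4 a h4 h2
      by_contra hlt
      push Not at hlt
      exact h3 ⟨h2, h1, hlt⟩
    · exact gad3 a h4.symm (by linarith) h1

/-- The classification for a fixed number of voters. -/
theorem classification {n : ℕ} (a : Fin n → ℝ) (ha : ∀ j, 0 ≤ a j) :
    NeverHarmful a ↔ (∀ i j, a i = a j) ∨
      (∃ h : n = 2, a ⟨1, by omega⟩ ≤ a ⟨0, by omega⟩) ∨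
      (∃ h : n = 3, a ⟨2, by omega⟩ < a ⟨1, by omega⟩ ∧ a ⟨1, by omega⟩ < a ⟨0, by omega⟩ ∧
        a ⟨0, by omega⟩ < a ⟨1, by omega⟩ + a ⟨2, by omega⟩) := by
  constructor
  · intro hN
    by_contra hcon
    push Not at hcon
    obtain ⟨h1, h2, h3⟩ := hcon
    apply harmful_of_gadget a ha ?_ hN
    have h1' : ¬ ∀ i j, a i = a j := by
      push Not
      exact h1
    rcases Nat.lt_or_ge n 4 with hn | hn
    · have hn2 : 2 ≤ n := by
        by_contra hlt
        apply h1'
        intro i j
        have : i = j := Fin.ext (by omega)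
        rw [this]
      have hn' : n = 2 ∨ n = 3 := by omega
      rcases hn' with rfl | rfl
      · exact gad0 a (h2 rfl)
      · apply gadget_three a ha (fun h => h1' fun i j => by rw [h i, h j])
        rintro ⟨k1, k2, k3⟩
        exact absurd k3 (not_lt.2 (h3 rfl k1 k2))
    · exact gadget_ge_four a hn h1'
  · rintro (h | ⟨rfl, h⟩ | ⟨rfl, h1, h2, h3⟩)
    · rcases Nat.eq_zero_or_pos n with rfl | hn
      · intro k E E' v
        exact v.elim0
      · exact never_const a (a ⟨0, hn⟩) (fun j => h j _)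
    · exact never_two a h
    · exact never_three a h2 h1 h3

/-- **Main result.** (0) Every election has exactly one outcome. (1) Free-riding is never harmful
under the sequential OWA rule `α` if and only if `α` is nonincreasing for two voters, is constant or
strictly decreasing with first weight less than the sum of the other two for three voters, and is
constant for four or more voters. (2) In particular there is a rule other than the utilitarian rule
under which free-riding is never harmful. (3) But every such rule coincides with the utilitarian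
rule on all elections with at least four voters. -/
theorem result :
    (∀ (n k : ℕ) (a : Fin n → ℝ) (E : Election n k), ∃! w, E.IsOutcome a w) ∧
    (∀ α : (n : ℕ) → Fin n → ℝ, IsOWA α →
      ((∀ n, NeverHarmful (α n)) ↔
        α 2 1 ≤ α 2 0 ∧
        ((∀ j, α 3 j = α 3 0) ∨ (α 3 2 < α 3 1 ∧ α 3 1 < α 3 0 ∧ α 3 0 < α 3 1 + α 3 2)) ∧
        ∀ n, 4 ≤ n → ∀ i j, α n i = α n j)) ∧
    (∃ α : (n : ℕ) → Fin n → ℝ, IsOWA α ∧ α 2 1 ≠ α 2 0 ∧ α 3 1 ≠ α 3 0 ∧
      ∀ n, NeverHarmful (α n)) ∧
    (∀ (n : ℕ) (a : Fin n → ℝ), 4 ≤ n → (∀ j, 0 ≤ a j) → (∃ i j, a i ≠ a j) →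
      ∃ (k : ℕ) (E E' : Election n k) (v : Fin n) (i : Fin k) (w w' : Fin k → ℕ),
        FreeRides a E E' v i w w' ∧ E.sat w' v k < E.sat w v k) := by
  have main : ∀ α : (n : ℕ) → Fin n → ℝ, IsOWA α →
      ((∀ n, NeverHarmful (α n)) ↔
        α 2 1 ≤ α 2 0 ∧
        ((∀ j, α 3 j = α 3 0) ∨ (α 3 2 < α 3 1 ∧ α 3 1 < α 3 0 ∧ α 3 0 < α 3 1 + α 3 2)) ∧
        ∀ n, 4 ≤ n → ∀ i j, α n i = α n j) := by
    intro α hα
    constructor
    · intro h
      refine ⟨?_, ?_, ?_⟩
      · rcases (classification (α 2) (hα.1 2)).1 (h 2) with h | ⟨_, h⟩ | ⟨h, _⟩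
        · exact (h 1 0).le
        · exact h
        · omega
      · rcases (classification (α 3) (hα.1 3)).1 (h 3) with h | ⟨h, _⟩ | ⟨_, h⟩
        · exact Or.inl fun j => h j 0
        · omega
        · exact Or.inr h
      · intro n hn
        rcases (classification (α n) (hα.1 n)).1 (h n) with h | ⟨h, _⟩ | ⟨h, _⟩
        · exact h
        · omega
        · omega
    · rintro ⟨h2, h3, h4⟩ n
      rw [classification (α n) (hα.1 n)]
      by_cases hn4 : 4 ≤ n
      · exact Or.inl (h4 n hn4)
      · by_cases hn3 : n = 3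
        · subst hn3
          rcases h3 with h3 | h3
          · exact Or.inl fun i j => by rw [h3 i, h3 j]
          · exact Or.inr (Or.inr ⟨rfl, h3⟩)
        · by_cases hn2 : n = 2
          · subst hn2
            exact Or.inr (Or.inl ⟨rfl, h2⟩)
          · left
            intro i j
            have : i = j := Fin.ext (by omega)
            rw [this]
  refine ⟨fun n k a E => exists_unique_outcome a E, main, ?_, ?_⟩
  · let α : (n : ℕ) → Fin n → ℝ := fun n j => if 4 ≤ n then 1 else 4 - (j : ℕ)
    have hα : IsOWA α := by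
      constructor
      · intro n j
        simp only [α]
        split_ifs with h
        · norm_num
        · have : (j : ℕ) ≤ 3 := by omega
          have : ((j : ℕ) : ℝ) ≤ 3 := by exact_mod_cast this
          linarith
      · intro n h
        simp only [α]
        split_ifs <;> norm_num
    refine ⟨α, hα, ?_, ?_, ?_⟩
    · simp [α]
    · simp [α]
    · rw [main α hα]
      refine ⟨?_, Or.inr ⟨?_, ?_, ?_⟩, ?_⟩
      · simp [α]
      · simp [α]
      · simp [α]
      · simp [α]
        try norm_num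
      · intro n hn i j
        simp [α, hn]
  · intro n a hn ha hne
    by_contra hcon
    push Not at hcon
    have hN : NeverHarmful a := by
      intro k E E' v i w w' hF
      exact hcon k E E' v i w w' hF
    rcases (classification a ha).1 hN with h | ⟨h, _⟩ | ⟨h, _⟩
    · obtain ⟨i, j, hij⟩ := hne
      exact hij (h i j)
    · omega
    · omega

end Pool.Agent.Results.MP_57045c_lc.Classification
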